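import Pool.Agent.H14R3.KK.Defs

/-! Task INVC of project KK (MP_d47e08_pr). -/

set_option autoImplicit false
open MeasureTheory ProbabilityTheory Filter Topology

namespace KK14

namespace INVCx

theorem decomp {n r : ℕ} (O : Sub n r → ℕ) (S : Sub n r) (h : O S ≠ 0) :
    O - Pi.single S 1 + Pi.single S 1 = O := by
  refine tsub_add_cancel_of_le ?_
  intro T
  by_cases hT : T = S
  · subst hT
    rw [Pi.single_eq_same]
    exact Nat.one_le_iff_ne_zero.2 h
  · rw [Pi.single_eq_of_ne hT]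
    exact Nat.zero_le _

theorem occ_add {n r : ℕ} (O O' : Sub n r → ℕ) (x : Fin n) :
    occ (O + O') x = occ O x + occ O' x := by
  unfold occ
  rw [← Finset.sum_add_distrib]
  refine Finset.sum_congr rfl fun S _ => ?_
  split_ifs
  · rfl
  · rfl

theorem occ_single {n r : ℕ} (S : Sub n r) (x : Fin n) :
    occ (Pi.single S 1) x = if x ∈ S.1 then 1 else 0 := by
  unfold occ
  rw [Finset.sum_eq_single S]
  · rw [Pi.single_eq_same]
  · intro T _ hT
    rw [Pi.single_eq_of_ne hT]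
    simp
  · intro h
    exact absurd (Finset.mem_univ S) h

theorem occ_sub {n r : ℕ} (O : Sub n r → ℕ) (S : Sub n r) (h : O S ≠ 0) (x : Fin n) :
    occ (O - Pi.single S 1) x + (if x ∈ S.1 then 1 else 0) = occ O x := by
  conv_rhs => rw [← decomp O S h, occ_add, occ_single]

theorem le_occ {n r : ℕ} (O : Sub n r → ℕ) (S : Sub n r) (x : Fin n) (hx : x ∈ S.1) :
    O S ≤ occ O x := by
  unfold occ
  have := Finset.single_le_sum (f := fun T : Sub n r => if x ∈ T.1 then O T else 0)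
    (fun T _ => Nat.zero_le _) (Finset.mem_univ S)
  simpa [hx] using this

end INVCx

open INVCx in
theorem INVC (n q l : ℕ) (I K : Sub n l) (O : Sub n (2 * q) → ℕ) (V : Finset (Fin n))
    (b : Fin n → ℕ) (hI : Inv I.1 O V b) (hS : (symmDiff I.1 K.1).card = 2 * q)
    (hO : O ⟨symmDiff I.1 K.1, hS⟩ ≠ 0) :
    Inv K.1 (O - Pi.single ⟨symmDiff I.1 K.1, hS⟩ 1) V b ∧
    ∑ S, (O - Pi.single ⟨symmDiff I.1 K.1, hS⟩ 1 : Sub n (2 * q) → ℕ) S + 1 = ∑ S, O S := by
  have hocc := occ_sub O ⟨symmDiff I.1 K.1, hS⟩ hO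
  have hmem : ∀ x, x ∈ symmDiff I.1 K.1 ↔ (x ∈ I.1 ∧ x ∉ K.1) ∨ (x ∈ K.1 ∧ x ∉ I.1) :=
    fun x => Finset.mem_symmDiff
  refine ⟨⟨?_, ?_, ?_, ?_⟩, ?_⟩
  · intro x hx
    by_cases hxI : x ∈ I.1
    · exact hI.sub hxI
    · by_contra hV
      have h1 := hI.out x hV
      have h2 := le_occ O ⟨symmDiff I.1 K.1, hS⟩ x ((hmem x).2 (Or.inr ⟨hx, hxI⟩))
      omega
  · intro x hx
    have h1 := hI.out x hx
    have h2 := hocc x
    omega
  · intro x hx
    have h2 := hocc x
    by_cases hxI : x ∈ I.1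
    · have := hI.pres x hxI
      omega
    · have h3 := hI.abse x hxI
      rw [if_pos ((hmem x).2 (Or.inr ⟨hx, hxI⟩))] at h2
      omega
  · intro x hx
    have h2 := hocc x
    by_cases hxI : x ∈ I.1
    · have := hI.pres x hxI
      omega
    · have h3 := hI.abse x hxI
      omega
  · have h1 := decomp O ⟨symmDiff I.1 K.1, hS⟩ hO
    have h2 : ∑ S, O S = ∑ S, ((O - Pi.single ⟨symmDiff I.1 K.1, hS⟩ 1 : Sub n (2 * q) → ℕ) S +
        (Pi.single ⟨symmDiff I.1 K.1, hS⟩ 1 : Sub n (2 * q) → ℕ) S) := by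
      conv_lhs => rw [← h1]
      rfl
    rw [h2, Finset.sum_add_distrib]
    congr 1
    rw [Finset.sum_pi_single']
    simp

end KK14
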